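import Pool.Agent.Lib.MP_688fd0_co.OSF.Iface

/-!
CORE: placing windows and bands.
-/

set_option autoImplicit false

namespace Pool.Agent.Lib.MP_688fd0_co.OSF

namespace H23

open Finset

universe u v

section

variable {Q : Type u} [Group Q] {B : Lb.{u, v} Q}

theorem verts_mul (x : Q) (l : List B.L) : ∀ y : Q, B.verts (x * y) l = (B.verts y l).map (fun z => x * z) := by
  induction l with
  | nil => intro y; simp [Lb.verts]
  | cons g l ih => intro y; simp [Lb.verts, mul_assoc, ih]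

/-- Translation of a band. -/
def tb (x : Q) (b : Q × B.L) : Q × B.L := (x * b.1, b.2)

theorem bv_tb (a : B.L) (x : Q) (b : Q × B.L) : bv a (tb x b) = (bv a b).map (fun z => x * z) := by
  simp [bv, tb, mul_assoc]

theorem rem_bv {a : B.L} {l : List (Q × B.L)} {x : Q} (h : Rem l x) : ∃ b ∈ l, x ∈ bv a b := by
  obtain ⟨b, hb, h | h⟩ := h
  · exact ⟨b, hb, by simp [bv, h]⟩
  · exact ⟨b, hb, by simp [bv, h]⟩

/-- Pairwise disjoint translates. -/
theorem nodup_tr {ι : Type} (x : ι → Q) (F : ι → Finset Q)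
    (hd : ∀ i j, i ≠ j → ∀ y ∈ F i, ∀ z ∈ F j, x i * y ≠ x j * z) (g : ι → List Q)
    (hg : ∀ i, (g i).Nodup) (hgF : ∀ i, ∀ y ∈ g i, y ∈ F i) (I : List ι) (hI : I.Nodup) :
    (I.flatMap (fun i => (g i).map (fun z => x i * z))).Nodup := by
  rw [List.nodup_flatMap]
  refine ⟨fun i _ => (hg i).map (mul_right_injective _), ?_⟩
  refine hI.pairwise_of_forall_ne ?_
  intro i _ j _ hij y hy hy'
  rw [List.mem_map] at hy hy'
  obtain ⟨z, hz, rfl⟩ := hy
  obtain ⟨z', hz', h⟩ := hy'
  exact hd i j hij z (hgF i z hz) z' (hgF j z' hz') h.symm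

/-- Translated lists of bands. -/
theorem flat_tb (a : B.L) (x : Q) (l : List (Q × B.L)) :
    (l.map (tb x)).flatMap (bv a) = (l.flatMap (bv a)).map (fun z => x * z) := by
  rw [List.flatMap_map, List.map_flatMap]
  congr 1
  funext b
  exact bv_tb a x b

/-- The tour with windows. -/
theorem tour_windows (hL : LinesS.{u, v}) (hB : BandsS.{u, v}) (hO : OrientS.{u, v}) [Fintype Q] (a : B.L)
    (hcen : Cen a) (hfin : Finite B.L) (hgen : Subgroup.closure (Set.range B.q) = ⊤) (ι : Type)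
    [Fintype ι] (W : ι → Win a) (hW : ∀ i, (W i).OK) (x : ι → Q)
    (hd : ∀ i j, i ≠ j → ∀ y ∈ (W i).F, ∀ z ∈ (W j).F, x i * y ≠ x j * z)
    (hcard : ∀ i, (W i).F.card ≤ 200)
    (hbig : 4 * (Fintype.card ι * 200) + 64 * Nat.card B.L + 10 < orderOf (B.q a)) :
    ∃ T : Tour B, ∀ i, ∀ s ∈ (W i).str, ∃ b, T.Pass b (x i * s.x) s.l := by
  classical
  set Z : Finset Q := Finset.univ.biUnion (fun i => (W i).F.image (fun z => x i * z)) with hZ
  have hZm : ∀ i, ∀ z ∈ (W i).F, x i * z ∈ Z := by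
    intro i z hz
    rw [hZ, Finset.mem_biUnion]
    exact ⟨i, Finset.mem_univ _, Finset.mem_image_of_mem _ hz⟩
  have hZc : Z.card ≤ Fintype.card ι * 200 := by
    refine Finset.card_biUnion_le_card_mul _ _ 200 (fun i _ => Finset.card_image_le.trans (hcard i))
  obtain ⟨lopt, hl1, hl2, hl3⟩ := hL Q B a Z hfin hcen hgen (by omega)
  set I : List ι := (Finset.univ : Finset ι).toList with hI
  have hIn : I.Nodup := Finset.nodup_toList _
  have hIm : ∀ i, i ∈ I := fun i => by rw [hI, Finset.mem_toList]; exact Finset.mem_univ i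
  set pre : List (Q × B.L) := I.flatMap (fun i => (W i).pre.map (tb (x i))) with hpre
  set wopt : List (Q × B.L) := I.flatMap (fun i => (W i).opt.map (tb (x i))) with hwopt
  have hmpre : ∀ b, b ∈ pre ↔ ∃ i, ∃ b0 ∈ (W i).pre, b = tb (x i) b0 := by
    intro b
    rw [hpre, List.mem_flatMap]
    constructor
    · rintro ⟨i, -, h⟩
      rw [List.mem_map] at h
      obtain ⟨b0, h1, rfl⟩ := h
      exact ⟨i, b0, h1, rfl⟩
    · rintro ⟨i, b0, h1, rfl⟩
      exact ⟨i, hIm i, List.mem_map_of_mem h1⟩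
  have hmopt : ∀ b, b ∈ wopt ↔ ∃ i, ∃ b0 ∈ (W i).opt, b = tb (x i) b0 := by
    intro b
    rw [hwopt, List.mem_flatMap]
    constructor
    · rintro ⟨i, -, h⟩
      rw [List.mem_map] at h
      obtain ⟨b0, h1, rfl⟩ := h
      exact ⟨i, b0, h1, rfl⟩
    · rintro ⟨i, b0, h1, rfl⟩
      exact ⟨i, hIm i, List.mem_map_of_mem h1⟩
  have hfp : ∀ i, ∀ b ∈ (W i).pre, ∀ y ∈ bv a b, y ∈ (W i).F := fun i b hb y hy =>
    (hW i).foot b (List.mem_append_left _ hb) y hy
  have hfo : ∀ i, ∀ b ∈ (W i).opt, ∀ y ∈ bv a b, y ∈ (W i).F := fun i b hb y hy =>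
    (hW i).foot b (List.mem_append_right _ hb) y hy
  have hnp : ∀ i, ((W i).pre.flatMap (bv a)).Nodup ∧ ((W i).opt.flatMap (bv a)).Nodup ∧
      ∀ y, y ∈ (W i).pre.flatMap (bv a) → y ∈ (W i).opt.flatMap (bv a) → False := by
    intro i
    have h := (hW i).bands
    rw [List.flatMap_append, List.nodup_append] at h
    exact ⟨h.1, h.2.1, fun y h1 h2 => h.2.2 y h1 y h2 rfl⟩
  have hFl : ∀ (l : ι → List (Q × B.L)) , (I.flatMap (fun i => (l i).map (tb (x i)))).flatMap (bv a) =
      I.flatMap (fun i => ((l i).flatMap (bv a)).map (fun z => x i * z)) := by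
    intro l
    rw [List.flatMap_assoc]
    congr 1
    funext i
    exact flat_tb a (x i) (l i)
  have hmemF : ∀ (l : ι → List (Q × B.L)) y, y ∈ (I.flatMap (fun i => (l i).map (tb (x i)))).flatMap (bv a) →
      ∃ i, ∃ z ∈ (l i).flatMap (bv a), y = x i * z := by
    intro l y hy
    rw [hFl, List.mem_flatMap] at hy
    obtain ⟨i, -, hy⟩ := hy
    rw [List.mem_map] at hy
    obtain ⟨z, hz, rfl⟩ := hy
    exact ⟨i, z, hz, rfl⟩
  have hinp : ∀ i z, z ∈ (W i).pre.flatMap (bv a) → z ∈ (W i).F := by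
    intro i z hz
    rw [List.mem_flatMap] at hz
    obtain ⟨b, hb, hz⟩ := hz
    exact hfp i b hb z hz
  have hino : ∀ i z, z ∈ (W i).opt.flatMap (bv a) → z ∈ (W i).F := by
    intro i z hz
    rw [List.mem_flatMap] at hz
    obtain ⟨b, hb, hz⟩ := hz
    exact hfo i b hb z hz
  have hlz : ∀ y, y ∈ lopt.flatMap (bv a) → y ∉ Z := by
    intro y hy
    rw [List.mem_flatMap] at hy
    obtain ⟨b, hb, hy⟩ := hy
    exact hl2 b hb y hy
  -- all bands are disjoint
  have hnd : ((pre ++ (wopt ++ lopt)).flatMap (bv a)).Nodup := by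
    rw [List.flatMap_append, List.flatMap_append, List.nodup_append, List.nodup_append]
    refine ⟨?_, ⟨?_, hl1, ?_⟩, ?_⟩
    · rw [hpre, hFl]
      exact nodup_tr x (fun i => (W i).F) hd _ (fun i => (hnp i).1) hinp I hIn
    · rw [hwopt, hFl]
      exact nodup_tr x (fun i => (W i).F) hd _ (fun i => (hnp i).2.1) hino I hIn
    · intro y hy y' hy' h
      subst h
      obtain ⟨i, z, hz, rfl⟩ := hmemF _ y hy
      exact hlz _ hy' (hZm i z (hino i z hz))
    · intro y hy y' hy' h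
      subst h
      obtain ⟨i, z, hz, rfl⟩ := hmemF _ y hy
      rw [List.mem_append] at hy'
      rcases hy' with hy' | hy'
      · obtain ⟨j, z', hz', h⟩ := hmemF _ _ hy'
        by_cases hij : i = j
        · subst hij
          have : z = z' := mul_left_cancel h
          subst this
          exact (hnp i).2.2 z hz hz'
        · exact hd i j hij z (hinp i z hz) z' (hino j z' hz') h
      · exact hlz _ hy' (hZm i z (hinp i z hz))
  -- removed edges
  have hrem : ∀ i, ∀ y ∈ (W i).F, Rem pre (x i * y) → Rem (W i).pre y := by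
    intro i y hy h
    obtain ⟨b, hb, h⟩ := h
    rw [hmpre] at hb
    obtain ⟨j, b0, hb0, rfl⟩ := hb
    by_cases hij : i = j
    · subst hij
      refine ⟨b0, hb0, ?_⟩
      rcases h with h | h
      · left; exact mul_left_cancel h
      · right; simp only [tb, mul_assoc] at h; exact mul_left_cancel h
    · exfalso
      rcases h with h | h
      · exact hd i j hij y hy b0.1 (hfp j b0 hb0 _ (by simp [bv])) h
      · simp only [tb, mul_assoc] at h
        exact hd i j hij y hy (b0.1 * B.q b0.2) (hfp j b0 hb0 _ (by simp [bv])) h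
  have haw : ∀ i, ∀ y ∈ (W i).F, (∀ b ∈ (W i).opt, y ∉ bv a b) → ∀ b ∈ wopt ++ lopt, x i * y ∉ bv a b := by
    intro i y hy h b hb hby
    rw [List.mem_append] at hb
    rcases hb with hb | hb
    · rw [hmopt] at hb
      obtain ⟨j, b0, hb0, rfl⟩ := hb
      rw [bv_tb, List.mem_map] at hby
      obtain ⟨z, hz, hzy⟩ := hby
      by_cases hij : i = j
      · subst hij
        have : z = y := mul_left_cancel hzy
        subst this
        exact h b0 hb0 hz
      · exact hd i j hij y hy z (hfo j b0 hb0 z hz) hzy.symm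
    · exact hl2 b hb _ hby (hZm i y hy)
  obtain ⟨Φ, hΦ1, hΦ2, hΦ3, hΦ4⟩ := hB Q B a pre (wopt ++ lopt) hcen (by
      intro h
      have h1 : B.q a ^ 2 = 1 := by rw [pow_two]; exact h
      have h2 := orderOf_le_of_pow_eq_one (by norm_num) h1
      omega) hnd (by
    intro r hr h1 h2 h3
    refine hl3 r hr ?_ (fun b hb => h3 b (List.mem_append_right _ hb))
    intro y
    by_cases hy : Rem pre y
    · obtain ⟨b, hb, h⟩ := hy
      rw [hmpre] at hb
      obtain ⟨i, b0, hb0, rfl⟩ := hb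
      have h4 := (hW i).conn (fun u w => r (x i * u) (x i * w))
        ⟨fun _ => hr.refl _, fun h => hr.symm h, fun h h' => hr.trans h h'⟩
        (fun u hu _ hu' => by
          rw [← mul_assoc]
          exact h1 _ (fun h => hu' (hrem i u hu h)))
        (fun b hb => by
          have := h2 (tb (x i) b) ((hmpre _).2 ⟨i, b, hb, rfl⟩)
          simp only [tb, mul_assoc] at this ⊢
          exact this)
        (fun b hb => by
          have := h3 (tb (x i) b) (List.mem_append_left _ ((hmopt _).2 ⟨i, b, hb, rfl⟩))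
          simp only [tb, mul_assoc] at this ⊢
          exact this) b0 hb0
      rcases h with h | h
      · rw [h]
        have := h4.1
        simp only [tb, mul_assoc] at this ⊢
        exact this
      · rw [h]
        have h5 := h4.2
        have h6 : b0.1 * B.q a * B.q b0.2 = b0.1 * B.q b0.2 * B.q a := by
          rw [mul_assoc, ← hcen, ← mul_assoc]
        rw [h6] at h5
        simp only [tb, mul_assoc] at h5 ⊢
        exact h5
    · exact h1 y hy)
  -- strands
  set S : List (Q × List B.L) := I.flatMap (fun i => (W i).str.map (fun s => (x i * s.x, s.l))) with hS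
  have hmS : ∀ i, ∀ s ∈ (W i).str, (x i * s.x, s.l) ∈ S := by
    intro i s hs
    rw [hS, List.mem_flatMap]
    exact ⟨i, hIm i, List.mem_map_of_mem (f := fun s : Strand B => (x i * s.x, s.l)) hs⟩
  have hmS' : ∀ s ∈ S, ∃ i, ∃ s0 ∈ (W i).str, s = (x i * s0.x, s0.l) := by
    intro s hs
    rw [hS, List.mem_flatMap] at hs
    obtain ⟨i, -, hs⟩ := hs
    rw [List.mem_map] at hs
    obtain ⟨s0, h1, rfl⟩ := hs
    exact ⟨i, s0, h1, rfl⟩
  obtain ⟨T, hT⟩ := hO Q B Φ hΦ1 hΦ2 hΦ3 S (by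
      intro s hs
      obtain ⟨i, s0, h1, rfl⟩ := hmS' s hs
      exact (hW i).sok.ne s0 h1) (by
      have h1 : (S.flatMap fun s => B.verts s.1 s.2) =
          I.flatMap (fun i => ((W i).str.flatMap Strand.vb).map (fun z => x i * z)) := by
        rw [hS, List.flatMap_assoc]
        congr 1
        funext i
        rw [List.flatMap_map, List.map_flatMap]
        congr 1
        funext s
        exact verts_mul (x i) s.l s.x
      rw [h1]
      refine nodup_tr x (fun i => (W i).F) hd _ (fun i => (hW i).sok.nodup) ?_ I hIn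
      intro i y hy
      rw [List.mem_flatMap] at hy
      obtain ⟨s, hs, hy⟩ := hy
      exact (hW i).sfoot s hs y hy) (by
      intro s hs
      obtain ⟨i, s0, h1, rfl⟩ := hmS' s hs
      show List.IsChain Φ.Adj (B.verts (x i * s0.x) s0.l)
      rw [verts_mul, List.isChain_map]
      refine ((hW i).base s0 h1).imp_of_mem_imp ?_
      intro y z hy hz h
      have hyF := (hW i).sfoot s0 h1 y hy
      have hzF := (hW i).sfoot s0 h1 z hz
      refine hΦ4 _ _ ?_ (haw i y hyF ((hW i).away s0 h1 y hy))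
      rcases h with ⟨h, h'⟩ | ⟨h, h'⟩ | h
      · left
        exact ⟨by rw [h, mul_assoc], fun h'' => h' (hrem i y hyF h'')⟩
      · right; left
        exact ⟨by rw [h, mul_assoc], fun h'' => h' (hrem i z hzF h'')⟩
      · right; right
        obtain ⟨b, hb, h⟩ := h
        refine ⟨tb (x i) b, (hmpre _).2 ⟨i, b, hb, rfl⟩, ?_⟩
        simp only [tb, mul_assoc]
        simp only [mul_assoc] at h
        rcases h with ⟨e1, e2⟩ | ⟨e1, e2⟩ | ⟨e1, e2⟩ | ⟨e1, e2⟩
        · exact Or.inl ⟨by rw [e1], by rw [e2]⟩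
        · exact Or.inr (Or.inl ⟨by rw [e1], by rw [e2]⟩)
        · exact Or.inr (Or.inr (Or.inl ⟨by rw [e1], by rw [e2]⟩))
        · exact Or.inr (Or.inr (Or.inr ⟨by rw [e1], by rw [e2]⟩)))
  exact ⟨T, fun i s hs => hT _ (hmS i s hs)⟩

/-- CORE. -/
theorem core (hL : LinesS.{u, v}) (hB : BandsS.{u, v}) (hO : OrientS.{u, v}) (hP : PlaceS.{u})
    (hW : WinS.{u, v}) (hF : FlipselS.{u, v}) : CoreS.{u, v} := by
  intro Q _ _ B m V a u hfin hodd hoddm hcen hnc hsq hgen hu hbu hba
  classical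
  set r := m.primeFactors.card with hr
  set ρ := Nat.card B.L with hρ
  set J := 2 ^ r * (r + 2) with hJ
  have hJ0 : 0 < J := by positivity
  -- sizes
  have hb1 : r * (4 * J) * 200 ^ 2 < big r ρ := by
    have h1 : r * (4 * J) * 200 ^ 2 = 160000 * (r * (r + 2) * 2 ^ r) := by rw [hJ]; ring
    have h2 : r * (r + 2) * 2 ^ r ≤ (r + 1) * (r + 2) * 2 ^ r := by gcongr; omega
    have h3 : (r + 1) * (r + 2) * 2 ^ r ≤ (ρ + 1) * ((r + 1) * (r + 2) * 2 ^ r) :=
      Nat.le_mul_of_pos_left _ (by omega)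
    have h4 : 0 < 2 ^ (ρ + 1) := by positivity
    have h5 : big r ρ = 1000000 * ((ρ + 1) * ((r + 1) * (r + 2) * 2 ^ r)) + 2 ^ (ρ + 1) := by
      rw [big]; ring
    rw [h1, h5]
    omega
  have hb2 : 4 * (r * (4 * J) * 200) + 64 * ρ + 10 < big r ρ := by
    have h1 : 4 * (r * (4 * J) * 200) = 3200 * (r * (r + 2) * 2 ^ r) := by rw [hJ]; ring
    have h2 : r * (r + 2) * 2 ^ r ≤ (r + 1) * (r + 2) * 2 ^ r := by gcongr; omega
    have h0 : 1 ≤ (r + 1) * (r + 2) * 2 ^ r := by
      have : 0 < (r + 1) * (r + 2) * 2 ^ r := by positivity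
      omega
    have h3 : (r + 1) * (r + 2) * 2 ^ r ≤ (ρ + 1) * ((r + 1) * (r + 2) * 2 ^ r) :=
      Nat.le_mul_of_pos_left _ (by omega)
    have h3' : ρ + 1 ≤ (ρ + 1) * ((r + 1) * (r + 2) * 2 ^ r) := Nat.le_mul_of_pos_right _ (by omega)
    have h4 : 0 < 2 ^ (ρ + 1) := by positivity
    have h5 : big r ρ = 1000000 * ((ρ + 1) * ((r + 1) * (r + 2) * 2 ^ r)) + 2 ^ (ρ + 1) := by
      rw [big]; ring
    rw [h1, h5]
    omega
  have hb3 : 1000 ≤ big r ρ := by
    have h0 : 1 ≤ (ρ + 1) * ((r + 1) * (r + 2) * 2 ^ r) := by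
      have : 0 < (ρ + 1) * ((r + 1) * (r + 2) * 2 ^ r) := by positivity
      omega
    have h5 : big r ρ = 1000000 * ((ρ + 1) * ((r + 1) * (r + 2) * 2 ^ r)) + 2 ^ (ρ + 1) := by
      rw [big]; ring
    have h4 : 0 < 2 ^ (ρ + 1) := by positivity
    rw [h5]
    omega
  -- windows
  have hwin : ∀ p : m.primeFactors, GoodW (V.map (red (Nat.dvd_of_mem_primeFactors p.2))) a := by
    intro p
    obtain ⟨s, hs⟩ := hnc p.1 p.2
    have hpp : p.1.Prime := Nat.prime_of_mem_primeFactors p.2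
    have hp2 : p.1 ≠ 2 := by
      intro h
      have h1 : 2 ∣ m := h ▸ Nat.dvd_of_mem_primeFactors p.2
      rw [Nat.odd_iff] at hoddm
      omega
    exact hW Q B p.1 _ a s ⟨inferInstance, by rwa [Nat.card_eq_fintype_card], hcen, hpp, hp2, by omega⟩
      (hsq s).1 (hsq s).2 hs
  choose W hW1 hW2 hW3 hW4 using hwin
  let ι := m.primeFactors × Fin (4 * J)
  have hcι : Fintype.card ι = r * (4 * J) := by
    simp [ι, hr]
  obtain ⟨x, hx1, hx2⟩ := hP Q u ι (fun i => (W i.1).F) 200 (fun i => hW2 i.1) (by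
    rw [hcι]; omega)
  obtain ⟨T, hT⟩ := tour_windows hL hB hO a hcen hfin hgen ι (fun i => W i.1) (fun i => hW1 i.1) x hx2
    (fun i => hW2 i.1) (by rw [hcι]; omega)
  -- directions
  let dir : ι → Strand B → Bool := fun i s => decide (T.Pass true (x i * s.x) s.l)
  have hdir : ∀ i, ∀ s ∈ (W i.1).str, T.Pass (dir i s) (x i * s.x) s.l := by
    intro i s hs
    obtain ⟨b, hb⟩ := hT i s hs
    by_cases h : T.Pass true (x i * s.x) s.l
    · have : dir i s = true := by simp [dir, h]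
      rw [this]; exact h
    · have : dir i s = false := by simp [dir, h]
      rw [this]
      cases b with
      | false => exact hb
      | true => exact absurd hb h
  let pat : ι → Fin 2 → Bool := fun i k =>
    if h : k.1 < (W i.1).str.length then dir i ((W i.1).str[k.1]) else true
  have hpig : ∀ p : m.primeFactors, ∃ e : Fin J → Fin (4 * J), Function.Injective e ∧
      ∀ i j, ∀ s ∈ (W p).str, dir (p, e i) s = dir (p, e j) s := by
    intro p
    obtain ⟨c, -, hc⟩ := Finset.exists_le_card_fiber_of_mul_le_card_of_maps_to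
      (s := (Finset.univ : Finset (Fin (4 * J)))) (t := (Finset.univ : Finset (Fin 2 → Bool)))
      (f := fun i => pat (p, i)) (n := J) (fun _ _ => Finset.mem_univ _) Finset.univ_nonempty
      (by simp)
    let e := Finset.orderEmbOfCardLe _ hc
    refine ⟨e, e.injective, ?_⟩
    have he : ∀ i, pat (p, e i) = c := by
      intro i
      have := Finset.orderEmbOfCardLe_mem _ hc i
      rw [Finset.mem_filter] at this
      exact this.2
    intro i j s hs
    obtain ⟨k, hk, rfl⟩ := List.getElem_of_mem hs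
    have hk2 : k < 2 := lt_of_lt_of_le hk (hW3 p)
    have h1 := congrFun (he i) ⟨k, hk2⟩
    have h2 := congrFun (he j) ⟨k, hk2⟩
    simp only [pat] at h1 h2
    rw [dif_pos hk] at h1 h2
    rw [h1, h2]
  choose e he1 he2 using hpig
  let w : ℕ → List (Strand B × Bool) := fun p =>
    if h : p ∈ m.primeFactors then
      (W ⟨p, h⟩).str.map (fun s => (s, dir (⟨p, h⟩, e ⟨p, h⟩ ⟨0, hJ0⟩) s)) else []
  let y : ℕ → ℕ → Q := fun p i =>
    if h : p ∈ m.primeFactors ∧ i < J then x (⟨p, h.1⟩, e ⟨p, h.1⟩ ⟨i, h.2⟩) else 1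
  have hw : ∀ p (hp : p ∈ m.primeFactors), w p =
      (W ⟨p, hp⟩).str.map (fun s => (s, dir (⟨p, hp⟩, e ⟨p, hp⟩ ⟨0, hJ0⟩) s)) := by
    intro p hp
    simp only [w]
    rw [dif_pos hp]
  have hwf : ∀ p (hp : p ∈ m.primeFactors), (w p).map Prod.fst = (W ⟨p, hp⟩).str := by
    intro p hp
    rw [hw p hp, List.map_map]
    exact List.map_id _
  have hy : ∀ p (hp : p ∈ m.primeFactors) i (hi : i < J), y p i = x (⟨p, hp⟩, e ⟨p, hp⟩ ⟨i, hi⟩) := by
    intro p hp i hi
    simp only [y]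
    rw [dif_pos ⟨hp, hi⟩]
  refine hF Q B m V hoddm T w y J rfl ?_ ?_ ?_ ?_ ?_
  · intro p hp
    rw [hwf p hp]
    exact (hW1 ⟨p, hp⟩).sok
  · intro p hp i hi
    rw [hy p hp i hi]
    exact MonoidHom.mem_ker.1 ((Subgroup.zpowers_le.2 (MonoidHom.mem_ker.2 hu)) (hx1 _))
  · intro p hp i hi s hs
    rw [hw p hp, List.mem_map] at hs
    obtain ⟨s0, hs0, rfl⟩ := hs
    rw [hy p hp i hi]
    rw [he2 ⟨p, hp⟩ ⟨0, hJ0⟩ ⟨i, hi⟩ s0 hs0]
    exact hdir (⟨p, hp⟩, e ⟨p, hp⟩ ⟨i, hi⟩) s0 hs0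
  · intro p hp i hi p' hp' i' hi' hne s hs s' hs' z hz z' hz'
    rw [hy p hp i hi, hy p' hp' i' hi']
    have h1 : s.1 ∈ (W ⟨p, hp⟩).str := by
      rw [← hwf p hp]; exact List.mem_map_of_mem hs
    have h2 : s'.1 ∈ (W ⟨p', hp'⟩).str := by
      rw [← hwf p' hp']; exact List.mem_map_of_mem hs'
    refine hx2 _ _ ?_ z ((hW1 ⟨p, hp⟩).sfoot _ h1 z hz) z' ((hW1 ⟨p', hp'⟩).sfoot _ h2 z' hz')
    intro h
    rw [Prod.mk.injEq] at h
    obtain ⟨h3, h4⟩ := h
    have h5 : p = p' := congrArg Subtype.val h3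
    subst h5
    have h6 := he1 ⟨p, hp⟩ h4
    rw [Fin.mk.injEq] at h6
    exact hne (by rw [h6])
  · intro p hp
    exact hW4 ⟨p, hp⟩ (w p) (hwf p hp)

end

end H23

end Pool.Agent.Lib.MP_688fd0_co.OSF
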