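import Pool.Agent.Lib.MP_688fd0_co.OSF.Iface2
import Pool.Agent.Lib.MP_688fd0_co.OSF.H38.Orders

/-!
ORD2: almost all odd integers are fine, with prime factors counted with multiplicity.
-/

set_option autoImplicit false

namespace Pool.Agent.Lib.MP_688fd0_co.OSF.H23

open Finset
open Pool.Agent.Lib.MP_ba0fa5_ag.AA (primesIn)

/-- number of prime powers `p ^ i`, `i ≥ 2`, dividing `n` -/
theorem omega_le (x n : ℕ) (hn : n ∈ Ioc 0 x) :
    n.primeFactorsList.length ≤ n.primeFactors.card +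
      ∑ p ∈ (Ioo 1 (x + 1)).filter Nat.Prime, ((Ico 2 (x + 1)).filter (fun i => p ^ i ∣ n)).card := by
  rw [mem_Ioc] at hn
  have h1 : n.primeFactorsList.length = ∑ p ∈ n.primeFactors, n.factorization p := by
    rw [← List.sum_toFinset_count_eq_length]
    refine Finset.sum_congr rfl ?_
    intro p _
    rw [Nat.primeFactorsList_count_eq]
  have h2 : ∀ p ∈ n.primeFactors, n.factorization p ≤
      1 + ((Ico 2 (x + 1)).filter (fun i => p ^ i ∣ n)).card := by
    intro p hp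
    rw [Nat.factorization_eq_card_pow_dvd n (Nat.prime_of_mem_primeFactors hp)]
    have h3 : (Ico 1 n).filter (fun i => p ^ i ∣ n) ⊆
        {1} ∪ (Ico 2 (x + 1)).filter (fun i => p ^ i ∣ n) := by
      intro i hi
      rw [mem_filter, mem_Ico] at hi
      rw [mem_union, mem_singleton, mem_filter, mem_Ico]
      by_cases h : i = 1
      · exact Or.inl h
      · right
        exact ⟨⟨by omega, by omega⟩, hi.2⟩
    refine (card_le_card h3).trans ((card_union_le _ _).trans ?_)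
    simp
  rw [h1]
  refine (Finset.sum_le_sum h2).trans ?_
  rw [Finset.sum_add_distrib]
  refine Nat.add_le_add (by simp) ?_
  refine Finset.sum_le_sum_of_subset ?_
  intro p hp
  rw [mem_filter, mem_Ioo]
  have h3 := Nat.prime_of_mem_primeFactors hp
  have h4 := Nat.le_of_dvd (by omega) (Nat.dvd_of_mem_primeFactors hp)
  exact ⟨⟨h3.one_lt, by omega⟩, h3⟩

/-- the sum of `1 / p ^ i`, `i ≥ 2` -/
theorem geom_le (p x : ℕ) (hp : 2 ≤ p) :
    ∑ i ∈ Ico 2 (x + 1), (1 : ℝ) / (p : ℝ) ^ i ≤ 2 * ((p : ℝ) ^ 2)⁻¹ := by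
  have hp' : (2 : ℝ) ≤ p := by exact_mod_cast hp
  have h1 : ∀ N : ℕ, ∑ i ∈ Ico 2 (N + 2), (1 : ℝ) / (p : ℝ) ^ i ≤
      (2 - (1 / 2) ^ N * 2) * ((p : ℝ) ^ 2)⁻¹ := by
    intro N
    induction N with
    | zero => simp
    | succ N ih =>
      rw [Finset.sum_Ico_succ_top (by omega)]
      have h2 : (1 : ℝ) / (p : ℝ) ^ (N + 2) ≤ (1 / 2) ^ N * ((p : ℝ) ^ 2)⁻¹ := by
        rw [pow_add, one_div, mul_inv, ← one_div, ← one_div_pow]
        gcongr
      have h3 : (2 - (1 / 2 : ℝ) ^ (N + 1) * 2) * ((p : ℝ) ^ 2)⁻¹ =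
          (2 - (1 / 2) ^ N * 2) * ((p : ℝ) ^ 2)⁻¹ + (1 / 2) ^ N * ((p : ℝ) ^ 2)⁻¹ := by
        rw [pow_succ]; ring
      rw [h3]
      linarith
  rcases Nat.lt_or_ge x 1 with h | h
  · have : x = 0 := by omega
    subst this
    simp
  · have h2 := h1 (x - 1)
    have h3 : x - 1 + 2 = x + 1 := by omega
    rw [h3] at h2
    refine h2.trans ?_
    gcongr
    have : 0 ≤ (1 / 2 : ℝ) ^ (x - 1) * 2 := by positivity
    linarith

/-- few `n` have `Ω(n) - ω(n)` large -/
theorem bad6 (x k : ℕ) (hk : 0 < k) :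
    (((Ioc 0 x).filter (fun n => n.primeFactors.card + k ≤ n.primeFactorsList.length)).card : ℝ) ≤
      4 * x / k := by
  classical
  rw [le_div_iff₀ (by exact_mod_cast hk)]
  set f : ℕ → ℕ := fun n =>
    ∑ p ∈ (Ioo 1 (x + 1)).filter Nat.Prime, ((Ico 2 (x + 1)).filter (fun i => p ^ i ∣ n)).card with hf
  have h1 : (((Ioc 0 x).filter (fun n => n.primeFactors.card + k ≤ n.primeFactorsList.length)).card : ℝ) * k
      ≤ ∑ n ∈ Ioc 0 x, (f n : ℝ) := by
    rw [← nsmul_eq_mul]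
    refine (Finset.card_nsmul_le_sum _ (fun n => (f n : ℝ)) _ ?_).trans ?_
    · intro n hn
      rw [mem_filter] at hn
      have h0 : n.primeFactorsList.length ≤ n.primeFactors.card + f n := omega_le x n hn.1
      have h2 : k ≤ f n := by
        omega
      exact Nat.cast_le.mpr h2
    · exact Finset.sum_le_sum_of_subset_of_nonneg (Finset.filter_subset _ _)
        fun _ _ _ => Nat.cast_nonneg _
  refine h1.trans ?_
  have h2 : ∑ n ∈ Ioc 0 x, (f n : ℝ) = ∑ p ∈ (Ioo 1 (x + 1)).filter Nat.Prime, ∑ i ∈ Ico 2 (x + 1),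
      (((Ioc 0 x).filter (fun n => p ^ i ∣ n)).card : ℝ) := by
    simp only [hf]
    push_cast
    rw [Finset.sum_comm]
    refine Finset.sum_congr rfl fun p _ => ?_
    have : ∀ n, (((Ico 2 (x + 1)).filter (fun i => p ^ i ∣ n)).card : ℝ) =
        ∑ i ∈ Ico 2 (x + 1), (if p ^ i ∣ n then 1 else 0 : ℝ) := by
      intro n
      rw [Finset.card_filter]
      push_cast
      rfl
    simp only [this]
    rw [Finset.sum_comm]
    refine Finset.sum_congr rfl fun i _ => ?_
    rw [Finset.card_filter]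
    push_cast
    rfl
  rw [h2]
  have h3 : ∀ p ∈ (Ioo 1 (x + 1)).filter Nat.Prime, ∑ i ∈ Ico 2 (x + 1),
      (((Ioc 0 x).filter (fun n => p ^ i ∣ n)).card : ℝ) ≤ x * (2 * ((p : ℝ) ^ 2)⁻¹) := by
    intro p hp
    rw [mem_filter, mem_Ioo] at hp
    refine le_trans ?_ (mul_le_mul_of_nonneg_left (geom_le p x (by omega)) (by positivity))
    rw [Finset.mul_sum]
    refine Finset.sum_le_sum fun i _ => ?_
    refine (H38.card_mult x (p ^ i)).trans ?_
    push_cast
    rw [mul_one_div]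
  refine (Finset.sum_le_sum h3).trans ?_
  rw [← Finset.mul_sum, ← Finset.mul_sum]
  have h4 : ∑ p ∈ (Ioo 1 (x + 1)).filter Nat.Prime, ((p : ℝ) ^ 2)⁻¹ ≤ ∑ p ∈ Ioo 0 (x + 1), ((p : ℝ) ^ 2)⁻¹ := by
    refine Finset.sum_le_sum_of_subset_of_nonneg ?_ fun _ _ _ => by positivity
    intro p hp
    rw [mem_filter, mem_Ioo] at hp
    rw [mem_Ioo]
    omega
  have h5 := sum_Ioo_inv_sq_le (α := ℝ) 0 (x + 1)
  have h6 : ∑ p ∈ (Ioo 1 (x + 1)).filter Nat.Prime, ((p : ℝ) ^ 2)⁻¹ ≤ 2 := by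
    refine h4.trans (h5.trans ?_)
    norm_num
  have hx : (0 : ℝ) ≤ x := by positivity
  nlinarith

/-- few `n` have few prime factors -/
theorem bad7 (k : ℕ) (ε : ℝ) (hε : 0 < ε) : ∃ x₀ : ℕ, ∀ x ≥ x₀,
    (((Ioc 0 x).filter (fun n => n.primeFactors.card < k)).card : ℝ) ≤ ε * x := by
  classical
  obtain ⟨J₀, hJ₀⟩ := exists_nat_ge (max (24 / ε) (4 * k))
  set J : ℕ := J₀ + 1 with hJ
  obtain ⟨W, hW⟩ := H38.low H38.mertap H38.recg 1 le_rfl J (by omega)
  have h1 := hW W le_rfl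
  set S := (primesIn W (W ^ 2 ^ J)).filter (fun p => p ≡ 1 - 1 [MOD 1]) with hS
  refine ⟨max (W ^ 2 ^ J) 1, fun x hx => ?_⟩
  have hSp : ∀ p ∈ S, p.Prime := fun p hp => (H38.mem_primesIn.mp (mem_filter.mp hp).1).2
  have hxW : W ^ 2 ^ J ≤ x := (le_max_left _ _).trans hx
  have hScard : S.card ≤ x := by
    have h1 : S ⊆ Ioc 0 x := by
      intro p hp
      have h2 := H38.mem_primesIn.mp (mem_filter.mp hp).1
      rw [mem_Ioc]
      exact ⟨h2.2.pos, h2.1.2.trans hxW⟩
    simpa using Finset.card_le_card h1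
  have hJr : (J : ℝ) = J₀ + 1 := by rw [hJ]; push_cast; ring
  have hJ1 : 24 / ε ≤ J₀ := (le_max_left _ _).trans hJ₀
  have hJ2 : (4 * k : ℝ) ≤ J₀ := (le_max_right _ _).trans hJ₀
  have h3 := H38.bad4 x S hSp hScard ((J : ℝ) / (2 * (1 : ℕ).totient)) (by
    rw [Nat.totient_one, hJr]; positivity) h1
  rw [Nat.totient_one] at h3
  have h4 : (Ioc 0 x).filter (fun n => n.primeFactors.card < k) ⊆
      (Ioc 0 x).filter fun n => ((S.filter (fun p => p ∣ n)).card : ℝ) ≤ (J : ℝ) / (2 * (1 : ℕ)) / 2 := by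
    intro n hn
    rw [mem_filter] at hn ⊢
    refine ⟨hn.1, ?_⟩
    have h5 : S.filter (fun p => p ∣ n) ⊆ n.primeFactors := by
      intro p hp
      rw [mem_filter] at hp
      rw [mem_Ioc] at hn
      exact Nat.mem_primeFactors.2 ⟨hSp p hp.1, hp.2, by omega⟩
    have h6 := card_le_card h5
    have h7 : ((S.filter (fun p => p ∣ n)).card : ℝ) ≤ k := by
      have : (S.filter (fun p => p ∣ n)).card ≤ k := by omega
      exact_mod_cast this
    rw [hJr]
    push_cast
    linarith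
  have h5 : (((Ioc 0 x).filter (fun n => n.primeFactors.card < k)).card : ℝ) ≤
      12 * x / ((J : ℝ) / (2 * (1 : ℕ))) := by
    refine le_trans ?_ h3
    exact_mod_cast card_le_card h4
  refine h5.trans ?_
  have hJ0 : (0 : ℝ) < J := by rw [hJr]; positivity
  rw [div_le_iff₀ (by positivity)]
  have h6 : 24 ≤ ε * J := by
    rw [div_le_iff₀ hε] at hJ1
    rw [hJr]
    nlinarith
  have hx0 : (0 : ℝ) ≤ x := by positivity
  push_cast
  nlinarith

open Classical in
theorem orders2 : Orders2S := by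
  intro c ε hε
  obtain ⟨k₀, hk₀⟩ := exists_nat_ge (12 / ε)
  set k := k₀ + 1 with hk
  obtain ⟨x₁, h1⟩ := H38.orders2 (2 * c) (ε / 3) (by positivity)
  obtain ⟨x₂, h2⟩ := bad7 k (ε / 3) (by positivity)
  refine ⟨max x₁ x₂, fun x hx => ?_⟩
  have h3 := h1 x ((le_max_left _ _).trans hx)
  have h4 := h2 x ((le_max_right _ _).trans hx)
  have h5 := bad6 x k (by omega)
  have hx0 : (0 : ℝ) ≤ x := by positivity
  have hkr : (k : ℝ) = k₀ + 1 := by rw [hk]; push_cast; ring
  have h6 : 4 * (x : ℝ) / k ≤ ε / 3 * x := by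
    rw [div_le_iff₀ (by rw [hkr]; positivity)]
    rw [div_le_iff₀ hε] at hk₀
    have : 12 ≤ ε * k := by rw [hkr]; nlinarith
    nlinarith
  have h7 : (Icc 1 x).filter (fun n => Odd n ∧ ¬ FineO c n) ⊆
      ((Icc 1 x).filter (fun n => Odd n ∧ ¬ H38.Fine (2 * c) n) ∪
        (Ioc 0 x).filter (fun n => n.primeFactors.card < k)) ∪
        (Ioc 0 x).filter (fun n => n.primeFactors.card + k ≤ n.primeFactorsList.length) := by
    intro n hn
    rw [mem_filter] at hn
    obtain ⟨hn1, hn2, hn3⟩ := hn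
    have hn0 : n ∈ Ioc 0 x := by
      rw [mem_Icc] at hn1
      rw [mem_Ioc]
      omega
    by_contra hcon
    rw [mem_union, mem_union, mem_filter, mem_filter, mem_filter, not_or, not_or] at hcon
    obtain ⟨⟨g1, g2⟩, g3⟩ := hcon
    have g1' : H38.Fine (2 * c) n := by
      by_contra h
      exact g1 ⟨hn1, hn2, h⟩
    have g2' : k ≤ n.primeFactors.card := by
      by_contra h
      exact g2 ⟨hn0, by omega⟩
    have g3' : n.primeFactorsList.length < n.primeFactors.card + k := by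
      by_contra h
      exact g3 ⟨hn0, by omega⟩
    apply hn3
    obtain ⟨P, hP, hP1, hP2⟩ := g1'
    refine ⟨P, hP, hP1, ?_⟩
    have hKK : 1 ≤ H38.KK n := by
      unfold H38.KK
      exact Finset.one_le_prod' fun q hq => (Nat.prime_of_mem_primeFactors (mem_filter.mp hq).1).pos
    calc 2 ^ (c * n.primeFactorsList.length) ≤ 2 ^ (n.primeFactors.card * (2 * c)) := by
          refine Nat.pow_le_pow_right (by norm_num) ?_
          have : n.primeFactorsList.length ≤ 2 * n.primeFactors.card := by omega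
          calc c * n.primeFactorsList.length ≤ c * (2 * n.primeFactors.card) := Nat.mul_le_mul_left _ this
            _ = n.primeFactors.card * (2 * c) := by ring
      _ = (2 ^ n.primeFactors.card) ^ (2 * c) := by rw [pow_mul]
      _ ≤ (2 ^ n.primeFactors.card * H38.KK n) ^ (2 * c) :=
          Nat.pow_le_pow_left (Nat.le_mul_of_pos_right _ (by omega)) _
      _ ≤ P := hP2
  have h8 := (card_le_card h7).trans ((card_union_le _ _).trans
    (Nat.add_le_add_right (card_union_le _ _) _))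
  have h9 : (((Icc 1 x).filter (fun n => Odd n ∧ ¬ FineO c n)).card : ℝ) ≤
      (((Icc 1 x).filter (fun n => Odd n ∧ ¬ H38.Fine (2 * c) n)).card : ℝ) +
        (((Ioc 0 x).filter (fun n => n.primeFactors.card < k)).card : ℝ) +
        (((Ioc 0 x).filter (fun n => n.primeFactors.card + k ≤ n.primeFactorsList.length)).card : ℝ) := by
    exact_mod_cast h8
  linarith

end Pool.Agent.Lib.MP_688fd0_co.OSF.H23
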