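import Pool.Agent.Lib.MP_688fd0_co.OSF.H23.Core
import Pool.Agent.Lib.MP_688fd0_co.OSF.H17.Lines
import Pool.Agent.Lib.MP_688fd0_co.OSF.H19.Bands
import Pool.Agent.Lib.MP_688fd0_co.OSF.H72.Orient
import Pool.Agent.Lib.MP_688fd0_co.OSF.H74.Place
import Pool.Agent.Lib.MP_688fd0_co.OSF.H74.Str
import Pool.Agent.Lib.MP_688fd0_co.OSF.H62.Win
import Pool.Agent.Lib.MP_688fd0_co.OSF.H94.W1
import Pool.Agent.Lib.MP_688fd0_co.OSF.H35.W2
import Pool.Agent.Lib.MP_688fd0_co.OSF.H9.W3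
import Pool.Agent.Lib.MP_688fd0_co.OSF.H16.Flipsel
import Pool.Agent.Lib.MP_688fd0_co.OSF.H59.RewireB
import Pool.Agent.Lib.MP_688fd0_co.OSF.H43.Glue
import Pool.Agent.Lib.MP_688fd0_co.OSF.H43.Hdata

/-!
The structural theorem.
-/

set_option autoImplicit false

namespace Pool.Agent.Lib.MP_688fd0_co.OSF.H23

universe u v

theorem coreAll : CoreS.{u, v} :=
  core H17.lines bands H72.orient place (H62.win H94.w1 H35.w2 H9.w3) (H16.flipsel H59.rewire numsel)

theorem strAll : StrS.{u} := str coreAll factor hdata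

end Pool.Agent.Lib.MP_688fd0_co.OSF.H23
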